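import Pool.Agent.Helper36.CV.StmtsR

set_option autoImplicit false

namespace Pool.Agent.Helper81.CV.L4

open Pool.Agent.Helper36.CV

theorem l4_mulb {a b A B : ℝ} (ha : |a| ≤ A) (hb : |b| ≤ B) : |a * b| ≤ A * B := by
  rw [abs_mul]
  exact mul_le_mul ha hb (abs_nonneg _) (le_trans (abs_nonneg _) ha)

/-- normalised estimate -/
theorem l4_norm (c m r z Q : ℝ) (hc : |c| ≤ 1 / 100) (hm : |m| ≤ 1 / 20000) (hr : |r| ≤ 1 / 1000)
    (hz : |z| ≤ 1 / 1000) (hQ0 : 0 ≤ Q) (hQ : Q ≤ (1 + m) ^ 2) :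
    19 / 10 ≤ 2 * (1 + m) * (1 + c * m) ^ 2 + 2 * (1 + c * m) * c * Q +
        r ^ 2 * (2 * (1 + m) * c ^ 2 + 2 * (1 + c * m) * c) ∧
    |2 * ((1 + c * m) ^ 2 + 4 * (1 + m) * (1 + c * m) * c + c ^ 2 * Q +
        z * (2 * (1 + m) * c ^ 2 + 2 * (1 + c * m) * c) + (z ^ 2 + r ^ 2) * c ^ 2) -
      (2 * (1 + m) * (1 + c * m) ^ 2 + 2 * (1 + c * m) * c * Q +
        r ^ 2 * (2 * (1 + m) * c ^ 2 + 2 * (1 + c * m) * c))| ≤ 3 * |m| + 11 * |c| := by
  have hcm : |c * m| ≤ 1 / 100 * (1 / 20000) := l4_mulb hc hm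
  set k : ℝ := 1 + c * m with hk
  have hk1 : |k - 1| ≤ 1 / 2000000 := by
    rw [hk, add_sub_cancel_left]; linarith
  have hk1' := abs_le.1 hk1
  have hm' := abs_le.1 hm
  have hc' := abs_le.1 hc
  have hkk : |k ^ 2 - 1| ≤ 1 / 100000 := by
    rw [abs_le]; constructor <;> nlinarith [hk1'.1, hk1'.2]
  have hkk' := abs_le.1 hkk
  have hQ1 : Q ≤ 10002 / 10000 := by nlinarith [hm'.1, hm'.2]
  have hQa : |Q| ≤ 10002 / 10000 := by rw [abs_of_nonneg hQ0]; exact hQ1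
  have hka : |k| ≤ 10001 / 10000 := by rw [abs_le]; constructor <;> linarith [hk1'.1, hk1'.2]
  have hr2 : |r ^ 2| ≤ 1 / 1000000 := by
    have := l4_mulb hr hr; rw [← pow_two] at this; linarith
  have hz2 : |z ^ 2| ≤ 1 / 1000000 := by
    have := l4_mulb hz hz; rw [← pow_two] at this; linarith
  have hcQ : |c * Q| ≤ 1 / 100 * (10002 / 10000) := l4_mulb hc hQa
  have hkcQ : |k * (c * Q)| ≤ 10001 / 10000 * (1 / 100 * (10002 / 10000)) := l4_mulb hka hcQ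
  have h1m : |1 + m| ≤ 10001 / 10000 := by rw [abs_le]; constructor <;> linarith [hm'.1, hm'.2]
  have h1mc : |(1 + m) * c| ≤ 10001 / 10000 * (1 / 100) := l4_mulb h1m hc
  have hin : |(1 + m) * c + k| ≤ 11 / 10 := by
    have := abs_add_le ((1 + m) * c) k; linarith
  have hr2in : |r ^ 2 * (((1 + m) * c + k) * c)| ≤ 1 / 1000000 * (11 / 10 * (1 / 100)) :=
    l4_mulb hr2 (l4_mulb hin hc)
  have h1mk : |(1 + m) * k ^ 2 - 1| ≤ 1 / 1000 := by
    have e : (1 + m) * k ^ 2 - 1 = (1 + m) * (k ^ 2 - 1) + m := by ring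
    rw [e]
    have h1 := l4_mulb h1m hkk
    have h2 := abs_add_le ((1 + m) * (k ^ 2 - 1)) m
    linarith
  have hDe : 2 * (1 + m) * k ^ 2 + 2 * k * c * Q + r ^ 2 * (2 * (1 + m) * c ^ 2 + 2 * k * c) =
      2 * ((1 + m) * k ^ 2 - 1) + 2 + 2 * (k * (c * Q)) + 2 * (r ^ 2 * (((1 + m) * c + k) * c)) := by ring
  constructor
  · rw [hDe]
    have a1 := (abs_le.1 h1mk).1
    have a2 := (abs_le.1 hkcQ).1
    have a3 := (abs_le.1 hr2in).1
    linarith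
  · have e2 : 2 * (k ^ 2 + 4 * (1 + m) * k * c + c ^ 2 * Q + z * (2 * (1 + m) * c ^ 2 + 2 * k * c) +
        (z ^ 2 + r ^ 2) * c ^ 2) -
      (2 * (1 + m) * k ^ 2 + 2 * k * c * Q + r ^ 2 * (2 * (1 + m) * c ^ 2 + 2 * k * c)) =
      (-2 * k ^ 2) * m + (8 * ((1 + m) * k) + 2 * (c * Q) - 2 * (k * Q) +
        (4 * z - 2 * r ^ 2) * ((1 + m) * c + k) + 2 * ((z ^ 2 + r ^ 2) * c)) * c := by ring
    rw [e2]
    have t1 : |(-2 * k ^ 2) * m| ≤ 3 * |m| := by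
      rw [abs_mul]
      apply mul_le_mul_of_nonneg_right _ (abs_nonneg _)
      rw [abs_le]; constructor <;> linarith [hkk'.1, hkk'.2]
    have b1 : |(1 + m) * k| ≤ 10001 / 10000 * (10001 / 10000) := l4_mulb h1m hka
    have b2 : |k * Q| ≤ 10001 / 10000 * (10002 / 10000) := l4_mulb hka hQa
    have b3 : |4 * z - 2 * r ^ 2| ≤ 5 / 1000 := by
      have hz' := abs_le.1 hz
      have hr' := abs_le.1 hr2
      rw [abs_le]; constructor <;> linarith [hz'.1, hz'.2, hr'.1, hr'.2]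
    have b4 : |(4 * z - 2 * r ^ 2) * ((1 + m) * c + k)| ≤ 5 / 1000 * (11 / 10) := l4_mulb b3 hin
    have b5 : |(z ^ 2 + r ^ 2) * c| ≤ 2 / 1000000 * (1 / 100) := by
      apply l4_mulb _ hc
      have := abs_add_le (z ^ 2) (r ^ 2); linarith
    have t2 : |8 * ((1 + m) * k) + 2 * (c * Q) - 2 * (k * Q) +
        (4 * z - 2 * r ^ 2) * ((1 + m) * c + k) + 2 * ((z ^ 2 + r ^ 2) * c)| ≤ 11 := by
      have c1 := abs_le.1 b1
      have c2 := abs_le.1 hcQ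
      have c3 := abs_le.1 b2
      have c4 := abs_le.1 b4
      have c5 := abs_le.1 b5
      rw [abs_le]; constructor <;> linarith [c1.1, c1.2, c2.1, c2.2, c3.1, c3.2, c4.1, c4.2, c5.1, c5.2]
    have t3 : |(8 * ((1 + m) * k) + 2 * (c * Q) - 2 * (k * Q) +
        (4 * z - 2 * r ^ 2) * ((1 + m) * c + k) + 2 * ((z ^ 2 + r ^ 2) * c)) * c| ≤ 11 * |c| := by
      rw [abs_mul]; exact mul_le_mul_of_nonneg_right t2 (abs_nonneg _)
    have := abs_add_le ((-2 * k ^ 2) * m) ((8 * ((1 + m) * k) + 2 * (c * Q) - 2 * (k * Q) +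
        (4 * z - 2 * r ^ 2) * ((1 + m) * c + k) + 2 * ((z ^ 2 + r ^ 2) * c)) * c)
    linarith

/-- the Taylor part, scaled -/
theorem l4_taylor (h τ ρ c m r z : ℝ) (h0 : 0 ≤ h) (hρ : 0 < ρ) (hτ : 1000 * ρ ≤ τ)
    (hh : h ≤ τ + m) (hm : |m| ≤ ρ / 20) (hr0 : 0 < r) (hr : r ≤ ρ) (hz : |z| ≤ ρ) (hc : |c| * τ ≤ 1 / 100) :
    ∃ D P : ℝ, 0 < D ∧ |2 * τ * P - D| ≤ (12 * |c| * τ + 4 * |m| / τ) * D ∧ 0 ≤ P ∧ 2 * τ * P ≤ 5 / 4 * D ∧
    ((τ + (m + r)) ^ 2 - h ^ 2) * (1 + c * (m + r)) ^ 2 - ((τ + (m - r)) ^ 2 - h ^ 2) * (1 + c * (m - r)) ^ 2 =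
      2 * r * D ∧
    4 * (((τ + (m + z)) ^ 2 - h ^ 2) * (1 + c * (m + z)) ^ 2) -
      2 * (((τ + (m - r)) ^ 2 - h ^ 2) * (1 + c * (m - r)) ^ 2) -
      2 * (((τ + (m + r)) ^ 2 - h ^ 2) * (1 + c * (m + r)) ^ 2) =
      4 * z * D + 4 * (z ^ 2 - r ^ 2) * P := by
  have hτ0 : 0 < τ := by linarith
  obtain ⟨hD, hP⟩ := l4_norm (c * τ) (m / τ) (r / τ) (z / τ) (((τ + m) ^ 2 - h ^ 2) / τ ^ 2)
    (by rw [abs_mul, abs_of_pos hτ0]; exact hc)
    (by rw [abs_div, abs_of_pos hτ0, div_le_iff₀ hτ0]; linarith)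
    (by rw [abs_div, abs_of_pos hτ0, abs_of_pos hr0, div_le_iff₀ hτ0]; linarith)
    (by rw [abs_div, abs_of_pos hτ0, div_le_iff₀ hτ0]; linarith)
    (by
      apply div_nonneg _ (by positivity)
      have e : (τ + m) ^ 2 - h ^ 2 = (τ + m - h) * (τ + m + h) := by ring
      rw [e]
      exact mul_nonneg (by linarith) (by linarith))
    (by
      rw [div_le_iff₀ (by positivity)]
      have : (1 + m / τ) ^ 2 * τ ^ 2 = (τ + m) ^ 2 := by field_simp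
      rw [this]; linarith [sq_nonneg h])
  have hD' : 2 * (τ + m) * (1 + c * m) ^ 2 + 2 * (1 + c * m) * c * ((τ + m) ^ 2 - h ^ 2) +
      r ^ 2 * (2 * (τ + m) * c ^ 2 + 2 * (1 + c * m) * c) =
      τ * (2 * (1 + m / τ) * (1 + c * τ * (m / τ)) ^ 2 + 2 * (1 + c * τ * (m / τ)) * (c * τ) * (((τ + m) ^ 2 - h ^ 2) / τ ^ 2) +
        (r / τ) ^ 2 * (2 * (1 + m / τ) * (c * τ) ^ 2 + 2 * (1 + c * τ * (m / τ)) * (c * τ))) := by
    field_simp
  have hP' : (1 + c * m) ^ 2 + 4 * (τ + m) * (1 + c * m) * c + c ^ 2 * ((τ + m) ^ 2 - h ^ 2) +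
      z * (2 * (τ + m) * c ^ 2 + 2 * (1 + c * m) * c) + (z ^ 2 + r ^ 2) * c ^ 2 =
      (1 + c * τ * (m / τ)) ^ 2 + 4 * (1 + m / τ) * (1 + c * τ * (m / τ)) * (c * τ) + (c * τ) ^ 2 * (((τ + m) ^ 2 - h ^ 2) / τ ^ 2) +
        z / τ * (2 * (1 + m / τ) * (c * τ) ^ 2 + 2 * (1 + c * τ * (m / τ)) * (c * τ)) +
        ((z / τ) ^ 2 + (r / τ) ^ 2) * (c * τ) ^ 2 := by
    field_simp
  rw [← hP'] at hP
  set P : ℝ := (1 + c * m) ^ 2 + 4 * (τ + m) * (1 + c * m) * c + c ^ 2 * ((τ + m) ^ 2 - h ^ 2) +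
      z * (2 * (τ + m) * c ^ 2 + 2 * (1 + c * m) * c) + (z ^ 2 + r ^ 2) * c ^ 2 with hPd
  set D1 : ℝ := (2 * (1 + m / τ) * (1 + c * τ * (m / τ)) ^ 2 + 2 * (1 + c * τ * (m / τ)) * (c * τ) * (((τ + m) ^ 2 - h ^ 2) / τ ^ 2) +
        (r / τ) ^ 2 * (2 * (1 + m / τ) * (c * τ) ^ 2 + 2 * (1 + c * τ * (m / τ)) * (c * τ))) with hD1
  set D : ℝ := 2 * (τ + m) * (1 + c * m) ^ 2 + 2 * (1 + c * m) * c * ((τ + m) ^ 2 - h ^ 2) +
      r ^ 2 * (2 * (τ + m) * c ^ 2 + 2 * (1 + c * m) * c) with hDd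
  have hm20 : |m| / τ ≤ 1 / 20000 := by rw [div_le_iff₀ hτ0]; linarith
  have hcab : |c * τ| = |c| * τ := by rw [abs_mul, abs_of_pos hτ0]
  have hmab : |m / τ| = |m| / τ := by rw [abs_div, abs_of_pos hτ0]
  rw [hcab, hmab] at hP
  have hcn : 0 ≤ |c| * τ := by positivity
  have hmn : 0 ≤ |m| / τ := by positivity
  have hE0 : 0 ≤ 12 * |c| * τ + 4 * |m| / τ := by positivity
  have hEe : 12 * |c| * τ + 4 * |m| / τ = 12 * (|c| * τ) + 4 * (|m| / τ) := by ring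
  have hPab := abs_le.1 hP
  have key : |2 * P - D1| ≤ (12 * |c| * τ + 4 * |m| / τ) * D1 := by
    refine hP.trans ?_
    rw [hEe]
    have hq := mul_le_mul_of_nonneg_left hD (show 0 ≤ 12 * (|c| * τ) + 4 * (|m| / τ) by positivity)
    linarith
  refine ⟨D, P, ?_, ?_, ?_, ?_, ?_, ?_⟩
  · rw [hD']; positivity
  · rw [hD']
    have : 2 * τ * P - τ * D1 = τ * (2 * P - D1) := by ring
    rw [this, abs_mul, abs_of_pos hτ0]
    have := mul_le_mul_of_nonneg_left key hτ0.le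
    linarith
  · linarith [hPab.1]
  · rw [hD']
    have : 2 * P ≤ 5 / 4 * D1 := by linarith [hPab.2]
    have := mul_le_mul_of_nonneg_left this hτ0.le
    linarith
  · rw [hDd]; ring
  · rw [hDd, hPd]; ring

theorem l4_sqdiff {u W e : ℝ} (hW : 0 ≤ W) (he : |u - W| ≤ e) : |u ^ 2 - W ^ 2| ≤ e * (2 * W + e) := by
  have : u ^ 2 - W ^ 2 = (u - W) * (2 * W + (u - W)) := by ring
  rw [this]
  apply l4_mulb he
  refine (abs_add_le _ _).trans ?_
  rw [abs_of_nonneg (by positivity)]; linarith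

theorem l4_sqdiff2 {u W e a p : ℝ} (hW : 0 ≤ W) (hp : 0 < p) (hua : a * p = u) (he : |u - W| ≤ e * p) :
    4 * |u ^ 2 - W ^ 2| ≤ (8 * a * e + 12 * e ^ 2) * p ^ 2 := by
  have he' := abs_le.1 he
  have he0 : 0 ≤ e := by
    have := (abs_nonneg _).trans he
    by_contra hcon
    push Not at hcon
    nlinarith
  subst hua
  rcases le_or_gt 0 a with ha | ha
  · have hap : 0 ≤ a * p := by positivity
    have h1 : |(a * p) ^ 2 - W ^ 2| ≤ (e * p) * (2 * (a * p) + e * p) := by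
      have e1 : (a * p) ^ 2 - W ^ 2 = (a * p - W) * (a * p + W) := by ring
      rw [e1]
      apply l4_mulb he
      rw [abs_of_nonneg (by positivity)]
      linarith [he'.1]
    have : 0 ≤ e ^ 2 * p ^ 2 := by positivity
    nlinarith
  · have hWe : W ≤ e * p := by nlinarith [he'.1, mul_pos hp (neg_pos.2 ha)]
    have hae : -e ≤ a := by
      by_contra hcon
      push Not at hcon
      have : a * p < -e * p := mul_lt_mul_of_pos_right hcon hp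
      nlinarith [he'.1]
    have h1 : |(a * p) ^ 2 - W ^ 2| ≤ (e * p) ^ 2 := by
      rw [abs_le]
      constructor
      · nlinarith [sq_nonneg (a * p), mul_nonneg he0 hp.le]
      · have : (a * p) ^ 2 ≤ (e * p) ^ 2 := by
          have : a ^ 2 ≤ e ^ 2 := by nlinarith
          nlinarith [sq_nonneg p]
        nlinarith [sq_nonneg W]
    have h2 : 0 ≤ (a + e) * e * p ^ 2 := by
      have : 0 ≤ a + e := by linarith
      positivity
    nlinarith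

theorem st_L4 : ST_L4 := by
  intro h τ ρ c XL XR XG WL WR WG uL uR uG p u α η ηG h0 hρ hτh hτ hXL hXR hXG hc hWL hWR hWG hp hp0 hu hα
    hη0 hη hηG0 hηG heL heR heG
  have hτ0 : 0 < τ := by linarith
  have hXL' := abs_le.1 hXL
  have hXR' := abs_le.1 hXR
  have hXG' := abs_le.1 hXG
  obtain ⟨m, hm⟩ : ∃ m, m = (XL + XR) / 2 := ⟨_, rfl⟩
  obtain ⟨r, hr⟩ : ∃ r, r = (XR - XL) / 2 := ⟨_, rfl⟩
  obtain ⟨z, hz⟩ : ∃ z, z = XG - (XL + XR) / 2 := ⟨_, rfl⟩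
  have hXLe : XL = m - r := by rw [hm, hr]; ring
  have hXRe : XR = m + r := by rw [hm, hr]; ring
  have hXGe : XG = m + z := by rw [hm, hz]; ring
  have hmb : |m| ≤ ρ / 20 := by rw [abs_le, hm]; constructor <;> linarith [hXL'.1, hXL'.2, hXR'.1, hXR'.2]
  have hmb' := abs_le.1 hmb
  have hrl : 45 / 100 * ρ ≤ r := by linarith [hXL'.1, hXL'.2, hXR'.1, hXR'.2]
  have hru : r ≤ 55 / 100 * ρ := by linarith [hXL'.1, hXL'.2, hXR'.1, hXR'.2]
  have hzb : |z| ≤ 55 / 100 * ρ := by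
    rw [abs_le]; constructor <;> linarith [hmb'.1, hmb'.2, hXG'.1, hXG'.2]
  have hr0 : 0 < r := by linarith [mul_pos (show (0:ℝ) < 45 / 100 by norm_num) hρ]
  obtain ⟨D, P, hD0, hPD, hP0, hPD2, hB, hA⟩ := l4_taylor h τ ρ c m r z h0 hρ hτ (by linarith [hmb'.1]) hmb hr0
    (by linarith) (by linarith) hc
  -- squares of the W
  have hnn : ∀ X : ℝ, |X| ≤ 55 / 100 * ρ → 0 ≤ (τ + X) ^ 2 - h ^ 2 ∧ 0 ≤ 1 + c * X := by
    intro X hX
    have hX' := abs_le.1 hX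
    constructor
    · have : h ≤ τ + X := by linarith [hX'.1]
      have e : (τ + X) ^ 2 - h ^ 2 = (τ + X - h) * (τ + X + h) := by ring
      rw [e]
      exact mul_nonneg (by linarith) (by linarith)
    · have h1 : |c * X| ≤ |c| * (55 / 100 * ρ) := by
        rw [abs_mul]; exact mul_le_mul_of_nonneg_left hX (abs_nonneg _)
      have h2 : |c| * (55 / 100 * ρ) ≤ |c| * τ := mul_le_mul_of_nonneg_left (by linarith) (abs_nonneg _)
      have h3 := (abs_le.1 (h1.trans (h2.trans hc))).1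
      linarith
  have hsq : ∀ X W : ℝ, |X| ≤ 55 / 100 * ρ → W = Real.sqrt ((τ + X) ^ 2 - h ^ 2) * (1 + c * X) →
      0 ≤ W ∧ W ^ 2 = ((τ + X) ^ 2 - h ^ 2) * (1 + c * X) ^ 2 := by
    intro X W hX hW
    obtain ⟨h1, h2⟩ := hnn X hX
    subst hW
    refine ⟨mul_nonneg (Real.sqrt_nonneg _) h2, ?_⟩
    rw [mul_pow, Real.sq_sqrt h1]
  obtain ⟨hWL0, hWL2⟩ := hsq XL WL (by rw [abs_le]; constructor <;> linarith [hXL'.1, hXL'.2]) hWL
  obtain ⟨hWR0, hWR2⟩ := hsq XR WR (by rw [abs_le]; constructor <;> linarith [hXR'.1, hXR'.2]) hWR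
  obtain ⟨hWG0, hWG2⟩ := hsq XG WG (by rw [abs_le]; constructor <;> linarith [hXG'.1, hXG'.2]) hWG
  rw [hXLe] at hWL2
  rw [hXRe] at hWR2
  rw [hXGe] at hWG2
  rw [← hWL2, ← hWR2] at hB
  rw [← hWL2, ← hWR2, ← hWG2] at hA
  -- bounds for u
  have heL' := abs_le.1 heL
  have heR' := abs_le.1 heR
  have hηp : 0 ≤ η * p := mul_nonneg hη0 hp0.le
  have hηp2 : η * p ≤ 1 / 100 * p := mul_le_mul_of_nonneg_right hη hp0.le
  have hu1 : 96 / 100 ≤ u := by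
    have : 96 / 100 * p ≤ u * p := by
      rw [hu]
      linarith [heL'.1, heL'.2, heR'.1, heR'.2]
    exact le_of_mul_le_mul_right this hp0
  -- errors
  have q1 := l4_sqdiff hWL0 heL
  have q2 := l4_sqdiff hWR0 heR
  have q3 := l4_sqdiff2 hWG0 hp0 hα heG
  have hsum : WL + WR ≤ u * p + 2 * (η * p) := by rw [hu]; linarith [heL'.1, heR'.1]
  have hE : |uL ^ 2 - WL ^ 2| + |uR ^ 2 - WR ^ 2| ≤ (2 * u + 6 * η) * η * p ^ 2 := by
    have : η * p * (2 * WL + η * p) + η * p * (2 * WR + η * p) ≤ η * p * (2 * (u * p + 2 * (η * p)) + 2 * (η * p)) := by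
      have := mul_le_mul_of_nonneg_left hsum hηp
      linarith
    have e : η * p * (2 * (u * p + 2 * (η * p)) + 2 * (η * p)) = (2 * u + 6 * η) * η * p ^ 2 := by ring
    linarith
  have hE2 : (2 * u + 6 * η) * η * p ^ 2 ≤ 21 / 10 * (u * η) * p ^ 2 := by
    apply mul_le_mul_of_nonneg_right _ (sq_nonneg p)
    have h1 : η * η ≤ 1 / 100 * η := mul_le_mul_of_nonneg_right hη hη0
    have h2 : 96 / 100 * η ≤ u * η := mul_le_mul_of_nonneg_right hu1 hη0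
    linarith
  obtain ⟨dL, hdL⟩ : ∃ d, d = uL ^ 2 - WL ^ 2 := ⟨_, rfl⟩
  obtain ⟨dR, hdR⟩ : ∃ d, d = uR ^ 2 - WR ^ 2 := ⟨_, rfl⟩
  obtain ⟨dG, hdG⟩ : ∃ d, d = uG ^ 2 - WG ^ 2 := ⟨_, rfl⟩
  rw [← hdL, ← hdR] at hE
  rw [← hdG] at q3
  have hup2 : u * p ^ 2 = 2 * r * D + (dR - dL) := by
    have : u * p ^ 2 = (u * p) * p := by ring
    rw [this, hu, hp, hdR, hdL, ← hB]; ring
  have hAp2 : (4 * α ^ 2 - u ^ 2 - 1) * p ^ 2 = 4 * z * D + 4 * (z ^ 2 - r ^ 2) * P + (4 * dG - 2 * dL - 2 * dR) := by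
    have : (4 * α ^ 2 - u ^ 2 - 1) * p ^ 2 = 4 * (α * p) ^ 2 - (u * p) ^ 2 - p ^ 2 := by ring
    rw [this, hα, hu, hp, hdR, hdL, hdG, ← hA]; ring
  -- the main inequality multiplied by p^2
  have hzr : |z / r| ≤ 1223 / 1000 := by
    rw [abs_div, abs_of_pos hr0, div_le_iff₀ hr0]; linarith
  have hrτ0 : 0 < r / τ := by positivity
  have hrτ : r / τ ≤ 1 / 1000 := by rw [div_le_iff₀ hτ0]; linarith
  obtain ⟨E, hEdef⟩ : ∃ E, E = 12 * |c| * τ + 4 * |m| / τ + 5 / 4 * (z / r) ^ 2 := ⟨_, rfl⟩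
  have hE0 : 0 ≤ E := by rw [hEdef]; positivity
  have hEu : E ≤ 3 := by
    have h1 : (z / r) ^ 2 ≤ 15 / 10 := by
      have := l4_mulb hzr hzr
      rw [← pow_two, abs_of_nonneg (sq_nonneg _)] at this
      linarith
    have h2 : |m| / τ ≤ 1 / 100 := by rw [div_le_iff₀ hτ0]; linarith
    have h3 : 4 * |m| / τ = 4 * (|m| / τ) := by ring
    rw [hEdef, h3]; linarith
  have hmain : |4 * z * D + 4 * (z ^ 2 - r ^ 2) * P - (2 * (z / r) - r / τ) * (2 * r * D)| ≤ r / τ * E * (2 * r * D) := by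
    have e1 : 4 * z * D + 4 * (z ^ 2 - r ^ 2) * P - (2 * (z / r) - r / τ) * (2 * r * D) =
        2 * r ^ 2 / τ * ((z / r) ^ 2 * (2 * τ * P) - (2 * τ * P - D)) := by
      field_simp
      ring
    have e2 : r / τ * E * (2 * r * D) = 2 * r ^ 2 / τ * (E * D) := by ring
    rw [e1, e2, abs_mul, abs_of_nonneg (show 0 ≤ 2 * r ^ 2 / τ by positivity)]
    apply mul_le_mul_of_nonneg_left _ (by positivity)
    refine (abs_sub _ _).trans ?_
    rw [abs_of_nonneg (show 0 ≤ (z / r) ^ 2 * (2 * τ * P) by positivity)]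
    have h1 : (z / r) ^ 2 * (2 * τ * P) ≤ (z / r) ^ 2 * (5 / 4 * D) :=
      mul_le_mul_of_nonneg_left hPD2 (sq_nonneg _)
    rw [hEdef]
    linarith
  have hgoal : |(4 * α ^ 2 - u ^ 2 - 1) * p ^ 2 - (2 * (z / r) - r / τ) * (u * p ^ 2)| ≤
      (r / τ * E * u + (8 * α * ηG + 12 * ηG ^ 2) + 20 * u * η) * p ^ 2 := by
    rw [hAp2]
    have e1 : 4 * z * D + 4 * (z ^ 2 - r ^ 2) * P + (4 * dG - 2 * dL - 2 * dR) - (2 * (z / r) - r / τ) * (u * p ^ 2) =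
        (4 * z * D + 4 * (z ^ 2 - r ^ 2) * P - (2 * (z / r) - r / τ) * (2 * r * D)) +
        (4 * dG - 2 * dL - 2 * dR - (2 * (z / r) - r / τ) * (dR - dL)) := by
      rw [hup2]; ring
    rw [e1]
    refine (abs_add_le _ _).trans ?_
    have h2rD : 2 * r * D ≤ u * p ^ 2 + (|dL| + |dR|) := by
      rw [hup2]
      linarith [neg_abs_le dR, neg_abs_le dL, le_abs_self dL, le_abs_self dR]
    have hco : 0 ≤ r / τ * E := by positivity
    have hco2 : r / τ * E ≤ 3 / 1000 := by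
      have := mul_le_mul hrτ hEu hE0 (by norm_num)
      linarith
    have h3 : r / τ * E * (2 * r * D) ≤ r / τ * E * (u * p ^ 2) + 3 / 1000 * (|dL| + |dR|) := by
      have h4 := mul_le_mul_of_nonneg_left h2rD hco
      have h5 : r / τ * E * (|dL| + |dR|) ≤ 3 / 1000 * (|dL| + |dR|) :=
        mul_le_mul_of_nonneg_right hco2 (by positivity)
      linarith
    have h6 : |2 * (z / r) - r / τ| ≤ 2448 / 1000 := by
      have := abs_le.1 hzr
      rw [abs_le]; constructor <;> linarith [this.1, this.2]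
    have h7 : |(2 * (z / r) - r / τ) * (dR - dL)| ≤ 2448 / 1000 * (|dL| + |dR|) := by
      apply l4_mulb h6
      refine (abs_sub _ _).trans ?_
      linarith
    have h8 : |4 * dG - 2 * dL - 2 * dR - (2 * (z / r) - r / τ) * (dR - dL)| ≤
        4 * |dG| + 2 * (|dL| + |dR|) + 2448 / 1000 * (|dL| + |dR|) := by
      have h9 := abs_le.1 h7
      rw [abs_le]; constructor <;>
        linarith [h9.1, h9.2, neg_abs_le dR, neg_abs_le dL, le_abs_self dL, le_abs_self dR, neg_abs_le dG, le_abs_self dG]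
    have hun : 0 ≤ u * η * p ^ 2 := by
      have : 0 ≤ u := by linarith
      positivity
    have e9 : (r / τ * E * u + (8 * α * ηG + 12 * ηG ^ 2) + 20 * u * η) * p ^ 2 =
        r / τ * E * (u * p ^ 2) + (8 * α * ηG + 12 * ηG ^ 2) * p ^ 2 + 20 * (u * η * p ^ 2) := by ring
    rw [e9]
    have hE3 : |dL| + |dR| ≤ 21 / 10 * (u * η * p ^ 2) := by linarith
    linarith [hmain, h3, h8, q3, hE3, hun]
  -- divide by p^2
  have hp2 : 0 < p ^ 2 := by positivity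
  have e1 : (4 * α ^ 2 - u ^ 2 - 1) * p ^ 2 - (2 * (z / r) - r / τ) * (u * p ^ 2) =
      (4 * α ^ 2 - u ^ 2 - 1 - 4 * u * (XG - (XL + XR) / 2) / (XR - XL) + u * (XR - XL) / (2 * τ)) * p ^ 2 := by
    have hd : XR - XL = 2 * r := by rw [hr]; ring
    rw [← hz, hd]
    field_simp
    ring
  rw [e1, abs_mul, abs_of_pos hp2] at hgoal
  have hfin := le_of_mul_le_mul_right hgoal hp2
  refine hfin.trans (le_of_eq ?_)
  have hd : XR - XL = 2 * r := by rw [hr]; ring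
  have hm2 : XL + XR = 2 * m := by rw [hm]; ring
  rw [hEdef, ← hz, hd, hm2, abs_mul, abs_of_pos (show (0:ℝ) < 2 by norm_num)]
  field_simp
  ring

end Pool.Agent.Helper81.CV.L4
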